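import Mathlib
import Pool.Agent.Lib.P52d521.GenFin

set_option autoImplicit false

namespace Pool.Agent.Results.MP_52d521_co.GenericMaximum

/-- `d(x) = x₁² + x₂²`, without complex conjugation. -/
def d (x : Fin 2 → ℂ) : ℂ := x 0 ^ 2 + x 1 ^ 2

/-- `(G,p)` and `(G,q)` are equivalent: `d(p(u)-p(v)) = d(q(u)-q(v))` for every edge `uv`. -/
def Equivalent {V : Type} (G : SimpleGraph V) (p q : V → Fin 2 → ℂ) : Prop :=
  ∀ u v : V, G.Adj u v → d (p u - p v) = d (q u - q v)

/-- `(G,p)` and `(G,q)` are congruent: the equality holds for every pair `u, v`. -/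
def Congruent {V : Type} (p q : V → Fin 2 → ℂ) : Prop :=
  ∀ u v : V, d (p u - p v) = d (q u - q v)

/-- Congruence as an equivalence relation on the realisations equivalent to `(G,p)`. -/
def congruence {V : Type} (G : SimpleGraph V) (p : V → Fin 2 → ℂ) :
    Setoid {r : V → Fin 2 → ℂ // Equivalent G r p} where
  r a b := Congruent a.1 b.1
  iseqv := ⟨fun _ _ _ => rfl, fun h u v => (h u v).symm, fun h h' u v => (h u v).trans (h' u v)⟩

/-- `c(G,p) ∈ ℕ ∪ {∞}`: the number of congruence classes of realisations equivalent to `(G,p)`. -/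
noncomputable def c {V : Type} (G : SimpleGraph V) (p : V → Fin 2 → ℂ) : ℕ∞ :=
  ENat.card (Quotient (congruence G p))

/-- `p` is generic: its `2|V|` coordinates are algebraically independent over `ℚ`. -/
def Generic {V : Type} (p : V → Fin 2 → ℂ) : Prop :=
  AlgebraicIndependent ℚ (fun x : V × Fin 2 => p x.1 x.2)

open Pool.Agent.P52d521 in
private theorem c_eq {V : Type} (G : SimpleGraph V) (p : V → Fin 2 → ℂ) :
    c G p = (classes G p).encard := by
  have hd : ∀ (r : V → Fin 2 → ℂ) (u v : V), d (r u - r v) = sd r u v := by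
    intro r u v
    simp [d, sd, Fin.sum_univ_two]
  let f : Quotient (congruence G p) → Set (V → Fin 2 → ℂ) :=
    Quotient.lift (fun r => {s | ∀ u v, sd s u v = sd r.1 u v}) (by
      intro a b hab
      have hab' : ∀ u v, d (a.1 u - a.1 v) = d (b.1 u - b.1 v) := hab
      simp only [hd] at hab'
      simp only [hab'])
  have hf : Function.Injective f := by
    intro x y
    induction x using Quotient.inductionOn with
    | _ a =>
    induction y using Quotient.inductionOn with
    | _ b =>
      intro hab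
      apply Quotient.sound
      have h1 : a.1 ∈ {s : V → Fin 2 → ℂ | ∀ u v, sd s u v = sd a.1 u v} := fun _ _ => rfl
      have h2 : {s : V → Fin 2 → ℂ | ∀ u v, sd s u v = sd a.1 u v} =
        {s : V → Fin 2 → ℂ | ∀ u v, sd s u v = sd b.1 u v} := hab
      rw [h2] at h1
      show ∀ u v, d (a.1 u - a.1 v) = d (b.1 u - b.1 v)
      intro u v
      rw [hd, hd]
      exact h1 u v
  have hrange : Set.range f = classes G p := by
    ext K
    constructor
    · rintro ⟨x, rfl⟩
      induction x using Quotient.inductionOn with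
      | _ a =>
        refine ⟨a.1, fun u v huv => ?_, rfl⟩
        have := a.2 u v huv
        rwa [hd, hd] at this
    · rintro ⟨r, hr, rfl⟩
      exact ⟨Quotient.mk _ ⟨r, fun u v huv => by rw [hd, hd]; exact hr u v huv⟩, rfl⟩
  rw [c, ← hrange, ← Set.image_univ, hf.encard_image, Set.encard_univ]

/-- Let `G` be a finite graph with `|E| = 2|V| - 3` and `(G,q)` any realisation with `c(G,q)`
finite. Then there is a natural number `N`, the value `c(G,p)` of all generic realisations `p`
(and these exist), with `c(G,q) ≤ N`. -/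
theorem result {V : Type} [Fintype V] (G : SimpleGraph V)
    (hG : G.edgeSet.ncard + 3 = 2 * Fintype.card V)
    (q : V → Fin 2 → ℂ) (hq : c G q ≠ ⊤) :
    ∃ N : ℕ, (∃ p : V → Fin 2 → ℂ, Generic p) ∧
      (∀ p : V → Fin 2 → ℂ, Generic p → c G p = N) ∧ c G q ≤ N := by
  have : Nonempty V := by
    rw [← Fintype.card_pos_iff]; omega
  rw [c_eq] at hq
  have hq' : (Pool.Agent.P52d521.classes G q).Finite := Set.encard_ne_top_iff.1 hq
  have hfin : ∀ p : V → Fin 2 → ℂ, Generic p → (Pool.Agent.P52d521.classes G p).Finite :=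
    fun p hp => Pool.Agent.P52d521.generic_finite G p q hp hq'
  obtain ⟨x, hx⟩ := Pool.Agent.P52d521.exists_generic (V × Fin 2)
  have hp₀ : Generic (fun v k => x (v, k)) := hx
  set p₀ : V → Fin 2 → ℂ := fun v k => x (v, k)
  refine ⟨(Pool.Agent.P52d521.classes G p₀).ncard, ⟨p₀, hp₀⟩, fun p hp => ?_, ?_⟩
  · rw [c_eq, (hfin p₀ hp₀).cast_ncard_eq]
    exact le_antisymm (Pool.Agent.P52d521.main G hG p₀ p hp₀ (hfin p hp))
      (Pool.Agent.P52d521.main G hG p p₀ hp (hfin p₀ hp₀))
  · rw [c_eq, (hfin p₀ hp₀).cast_ncard_eq]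
    exact Pool.Agent.P52d521.main G hG p₀ q hp₀ hq'

end Pool.Agent.Results.MP_52d521_co.GenericMaximum
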